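import Pool.Agent.W482.IP.Stm

/-!
Project IP (helper482), MP_e6e621_lc: part LINE.
-/

set_option autoImplicit false

open Finset Filter Topology Set

namespace Pool.Agent.W636.IP

open Pool.Agent.W482.IP

theorem cda_deriv {f : ℝ → ℝ} {t : ℝ} {n m : WithTop ℕ∞} (h : ContDiffAt ℝ n f t)
    (hm : m + 1 ≤ n) : ContDiffAt ℝ m (deriv f) t := by
  have h1 := h.fderiv_right hm
  have h2 : deriv f = fun x => fderiv ℝ f x 1 := by
    funext x; exact fderiv_apply_one_eq_deriv.symm
  rw [h2]
  exact h1.clm_apply contDiffAt_const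

theorem line : LINE := by
  intro n G F hG hF x h t₀ hx
  set L : ℝ → ℝ := fun t => F (x + t • h) with hL
  have hd : ∀ (k : ℕ) (t : ℝ), dird k F (x + t • h) h = iteratedDeriv k L t := by
    intro k t
    unfold dird
    have h1 : (fun s : ℝ => F (x + t • h + s • h)) = fun s => L (t + s) := by
      funext s
      rw [hL]
      simp only
      rw [add_smul, add_assoc]
    rw [h1, iteratedDeriv_comp_const_add]
    simp only [add_zero]
  have c3 : ContDiffAt ℝ 3 L t₀ := by
    have h1 : ContDiffAt ℝ 3 F (x + t₀ • h) := (hF _ hx).contDiffAt (hG.mem_nhds hx)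
    have h2 : ContDiffAt ℝ 3 (fun t : ℝ => x + t • h) t₀ :=
      contDiffAt_const.add (contDiffAt_id.smul contDiffAt_const)
    exact h1.comp t₀ h2
  have c2 : ContDiffAt ℝ 2 (deriv L) t₀ := cda_deriv c3 (by norm_num)
  have c1 : ContDiffAt ℝ 1 (deriv (deriv L)) t₀ := cda_deriv c2 (by norm_num)
  have e1 : iteratedDeriv 1 L = deriv L := iteratedDeriv_one
  have e2 : iteratedDeriv 2 L = deriv (deriv L) := by rw [iteratedDeriv_succ, e1]
  have e3 : iteratedDeriv 3 L = deriv (deriv (deriv L)) := by rw [iteratedDeriv_succ, e2]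
  simp only [hd, e1, e2, e3]
  exact ⟨(c3.differentiableAt (by norm_num)).hasDerivAt,
    (c2.differentiableAt (by norm_num)).hasDerivAt,
    (c1.differentiableAt (by norm_num)).hasDerivAt⟩

end Pool.Agent.W636.IP
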