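import Pool.Agent.W973.IP.Defs

set_option autoImplicit false

namespace Pool.Agent.W636.IP

open Pool.Agent.W973.IP

theorem qb : S_QB := by
  intro n a
  set Λ : ℝ := (∑ s : Fin (MM n), ∑ j : Fin n, ((s : ℕ) : ℝ) ^ (j : ℕ)) + 1 with hΛ
  have hΛ1 : 1 ≤ Λ := by
    have : 0 ≤ ∑ s : Fin (MM n), ∑ j : Fin n, ((s : ℕ) : ℝ) ^ (j : ℕ) :=
      Finset.sum_nonneg fun s _ => Finset.sum_nonneg fun j _ => by positivity
    linarith
  have hC1 : 0 ≤ ∑ l : Fin n, |a (Sum.inl l)| := Finset.sum_nonneg fun l _ => abs_nonneg _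
  have hC2 : 0 ≤ ∑ t : Tx n, |a (Sum.inr t)| * Λ ^ (2 * n + 1) :=
    Finset.sum_nonneg fun l _ => mul_nonneg (abs_nonneg _) (by positivity)
  refine ⟨(∑ l : Fin n, |a (Sum.inl l)|) + ∑ t : Tx n, |a (Sum.inr t)| * Λ ^ (2 * n + 1),
    add_nonneg hC1 hC2, fun u w => ?_⟩
  have hX1 : 1 ≤ X w := by
    unfold Pool.Agent.W973.IP.X
    have : 0 ≤ ∑ j, w j ^ 2 := Finset.sum_nonneg fun j _ => sq_nonneg _
    linarith
  set Y : ℝ := Real.sqrt (X w) with hY
  have hY2 : Y ^ 2 = X w := Real.sq_sqrt (by linarith)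
  have hY1 : 1 ≤ Y := by
    rw [hY]; exact Real.one_le_sqrt.mpr hX1
  have hw : ∀ j, |w j| ≤ Y := by
    intro j
    rw [hY]
    apply Real.abs_le_sqrt
    unfold Pool.Agent.W973.IP.X
    have := Finset.single_le_sum (f := fun j => w j ^ 2) (fun j _ => sq_nonneg _)
      (Finset.mem_univ j)
    linarith
  have how : ∀ o, |ow w o| ≤ Y := by
    intro o
    cases o with
    | none => simpa [ow] using hY1
    | some j => simpa [ow] using hw j
  have hL : ∀ s : Fin (MM n), |Lf (s : ℕ) w| ≤ Λ * Y := by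
    intro s
    unfold Lf
    calc |∑ j : Fin n, ((s : ℕ) : ℝ) ^ (j : ℕ) * w j|
        ≤ ∑ j : Fin n, |((s : ℕ) : ℝ) ^ (j : ℕ) * w j| := Finset.abs_sum_le_sum_abs _ _
      _ ≤ ∑ j : Fin n, ((s : ℕ) : ℝ) ^ (j : ℕ) * Y := by
          refine Finset.sum_le_sum fun j _ => ?_
          rw [abs_mul, abs_of_nonneg (by positivity : (0 : ℝ) ≤ ((s : ℕ) : ℝ) ^ (j : ℕ))]
          exact mul_le_mul_of_nonneg_left (hw j) (by positivity)
      _ = (∑ j : Fin n, ((s : ℕ) : ℝ) ^ (j : ℕ)) * Y := by rw [Finset.sum_mul]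
      _ ≤ Λ * Y := by
          refine mul_le_mul_of_nonneg_right ?_ (by linarith)
          have := Finset.single_le_sum (f := fun s : Fin (MM n) => ∑ j : Fin n, ((s : ℕ) : ℝ) ^ (j : ℕ))
            (fun s _ => Finset.sum_nonneg fun j _ => by positivity) (Finset.mem_univ s)
          linarith
  have ht : ∀ t : Tx n, |Lf (t.2.1 : ℕ) w ^ (t.2.2 : ℕ) * ow w t.1| ≤
      Λ ^ (2 * n + 1) * X w ^ (n + 1) := by
    intro t
    have hd : (t.2.2 : ℕ) ≤ 2 * n + 1 := by have := t.2.2.isLt; omega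
    rw [abs_mul, abs_pow]
    calc |Lf (t.2.1 : ℕ) w| ^ (t.2.2 : ℕ) * |ow w t.1|
        ≤ (Λ * Y) ^ (t.2.2 : ℕ) * Y :=
          mul_le_mul (pow_le_pow_left₀ (abs_nonneg _) (hL _) _) (how _) (abs_nonneg _)
            (by positivity)
      _ ≤ (Λ * Y) ^ (2 * n + 1) * Y := by
          refine mul_le_mul_of_nonneg_right ?_ (by linarith)
          exact pow_le_pow_right₀ (by nlinarith) hd
      _ = Λ ^ (2 * n + 1) * X w ^ (n + 1) := by
          rw [← hY2, mul_pow, ← pow_mul, mul_assoc, ← pow_succ]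
          congr 2
  have e : qa a u w - X w ^ (n + 2) = ∑ l, a (Sum.inl l) * u l +
      ∑ t : Tx n, a (Sum.inr t) * (Lf (t.2.1 : ℕ) w ^ (t.2.2 : ℕ) * ow w t.1) := by
    unfold qa; ring
  rw [e]
  have hXn : 0 ≤ X w ^ (n + 1) := by positivity
  have hU : 0 ≤ ∑ l, |u l| := Finset.sum_nonneg fun l _ => abs_nonneg _
  have h1 : |∑ l, a (Sum.inl l) * u l| ≤ (∑ l : Fin n, |a (Sum.inl l)|) * ∑ l, |u l| := by
    calc |∑ l, a (Sum.inl l) * u l| ≤ ∑ l, |a (Sum.inl l) * u l| :=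
          Finset.abs_sum_le_sum_abs _ _
      _ ≤ ∑ l, |a (Sum.inl l)| * ∑ l', |u l'| := by
          refine Finset.sum_le_sum fun l _ => ?_
          rw [abs_mul]
          refine mul_le_mul_of_nonneg_left ?_ (abs_nonneg _)
          exact Finset.single_le_sum (f := fun l => |u l|) (fun l _ => abs_nonneg _)
            (Finset.mem_univ l)
      _ = _ := by rw [Finset.sum_mul]
  have h2 : |∑ t : Tx n, a (Sum.inr t) * (Lf (t.2.1 : ℕ) w ^ (t.2.2 : ℕ) * ow w t.1)| ≤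
      (∑ t : Tx n, |a (Sum.inr t)| * Λ ^ (2 * n + 1)) * X w ^ (n + 1) := by
    calc |∑ t : Tx n, a (Sum.inr t) * (Lf (t.2.1 : ℕ) w ^ (t.2.2 : ℕ) * ow w t.1)|
        ≤ ∑ t : Tx n, |a (Sum.inr t) * (Lf (t.2.1 : ℕ) w ^ (t.2.2 : ℕ) * ow w t.1)| :=
          Finset.abs_sum_le_sum_abs _ _
      _ ≤ ∑ t : Tx n, |a (Sum.inr t)| * Λ ^ (2 * n + 1) * X w ^ (n + 1) := by
          refine Finset.sum_le_sum fun t _ => ?_
          rw [abs_mul, mul_assoc]
          exact mul_le_mul_of_nonneg_left (ht t) (abs_nonneg _)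
      _ = _ := by rw [Finset.sum_mul]
  refine (abs_add_le _ _).trans ?_
  have := mul_nonneg hC1 hXn
  have := mul_nonneg hC2 hU
  nlinarith [h1, h2]

end Pool.Agent.W636.IP
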